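import Mathlib

/-!
The rational cone generated by `{a^m b^n | n ≠ m}` is not minimal with respect to bounded
languages of degree 3: the language `a*b*c* \ {a^n b^n c^n}` lies in it, is not regular and does
not generate it.
-/

namespace Pool.Agent.Results.MP_3a8f7c_lc.NeConeNotMinimal

/-- A finite transducer with input alphabet `A` and output alphabet `B`; every transition reads
at most one letter and writes at most one letter. -/
structure Transducer (A B : Type) where
  Q : Type
  fin : Finite Q
  E : Set (Q × Option A × Option B × Q)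
  I : Set Q
  F : Set Q

/-- Runs of a transducer. -/
inductive Path {A B Q : Type} (E : Set (Q × Option A × Option B × Q)) :
    Q → List A → List B → Q → Prop
  | nil (q : Q) : Path E q [] [] q
  | cons {p q r : Q} {a : Option A} {b : Option B} {x : List A} {y : List B} :
      (p, a, b, q) ∈ E → Path E q x y r → Path E p (a.toList ++ x) (b.toList ++ y) r

/-- The rational transduction realised by a transducer. -/
def Transducer.rel {A B : Type} (M : Transducer A B) (x : List A) (y : List B) : Prop :=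
  ∃ i ∈ M.I, ∃ f ∈ M.F, Path M.E i x y f

/-- The image of a language. -/
def Transducer.image {A B : Type} (M : Transducer A B) (L : Set (List A)) : Set (List B) :=
  {y | ∃ x ∈ L, M.rel x y}

/-- A family of languages over finite alphabets that is closed under rational transductions. -/
def IsCone (C : (A : Type) → Set (Set (List A))) : Prop :=
  ∀ (A B : Type) [Finite A] [Finite B] (M : Transducer A B), ∀ L ∈ C A, M.image L ∈ C B

/-- The smallest rational cone containing `L`. -/
def T {A : Type} (L : Set (List A)) : (B : Type) → Set (Set (List B)) :=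
  fun B => {K | ∀ C, IsCone C → L ∈ C A → K ∈ C B}

/-- Languages contained in `w₁* w₂* ⋯ w_k*`. -/
def Bounded (k : ℕ) {A : Type} (L : Set (List A)) : Prop :=
  ∃ w : Fin k → List A, ∀ x ∈ L, ∃ n : Fin k → ℕ,
    x = (List.ofFn fun i => (List.replicate (n i) (w i)).flatten).flatten

/-- Regular languages. -/
def Regular {A : Type} (L : Set (List A)) : Prop := Language.IsRegular (show Language A from L)

/-- `C` is minimal with respect to bounded languages of degree `k`: every bounded language of
degree `k` in `C` is regular or generates `C`. -/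
def Minimal (C : (A : Type) → Set (Set (List A))) (k : ℕ) : Prop :=
  ∀ (A : Type) [Finite A], ∀ L ∈ C A, Bounded k L → Regular L ∨
    ∀ (B : Type) [Finite B], T L B = C B

/-- `{a^m b^n | n < m or n = m}` -/
def sLt : Set (List (Fin 2)) := {x | ∃ m n : ℕ, n ≤ m ∧ x = List.replicate m 0 ++ List.replicate n 1}

/-- `{a^m b^n | n ≠ m}` -/
def sNe : Set (List (Fin 2)) := {x | ∃ m n : ℕ, n ≠ m ∧ x = List.replicate m 0 ++ List.replicate n 1}

/-- `{a^m b^n | n ≥ m}` -/
def sGt : Set (List (Fin 2)) := {x | ∃ m n : ℕ, n ≥ m ∧ x = List.replicate m 0 ++ List.replicate n 1}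

/-- `a^n b^m c^p` -/
def W (n m p : ℕ) : List (Fin 3) :=
  List.replicate n 0 ++ (List.replicate m 1 ++ List.replicate p 2)

/-- `a*b*c* \ {a^n b^n c^n}` -/
def L3 : Set (List (Fin 3)) := {x | ∃ n m p : ℕ, ¬ (n = m ∧ m = p) ∧ x = W n m p}

/-! ### Paths -/

section path

variable {A B Q : Type} {E : Set (Q × Option A × Option B × Q)}

theorem Path.append {p q r : Q} {x x' : List A} {y y' : List B} (h : Path E p x y q)
    (h' : Path E q x' y' r) : Path E p (x ++ x') (y ++ y') r := by
  induction h with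
  | nil q => simpa using h'
  | cons he _ ih =>
    rw [List.append_assoc, List.append_assoc]
    exact Path.cons he (ih h')

theorem Path.split {p r : Q} {x : List A} {v : List B} (h : Path E p x v r) :
    ∀ x₁ x₂ : List A, x = x₁ ++ x₂ → ∃ (s : Q) (v₁ v₂ : List B), v = v₁ ++ v₂ ∧
      Path E p x₁ v₁ s ∧ Path E s x₂ v₂ r := by
  induction h with
  | nil q =>
    intro x₁ x₂ hx
    obtain ⟨rfl, rfl⟩ := List.append_eq_nil_iff.1 hx.symm
    exact ⟨q, [], [], rfl, Path.nil q, Path.nil q⟩
  | @cons p q r a b x y he hp ih =>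
    intro x₁ x₂ hx
    cases a with
    | none =>
      obtain ⟨s, v₁, v₂, hv, h1, h2⟩ := ih x₁ x₂ (by simpa using hx)
      refine ⟨s, b.toList ++ v₁, v₂, by rw [hv, List.append_assoc], ?_, h2⟩
      have := Path.cons he h1
      simpa using this
    | some a =>
      cases x₁ with
      | nil =>
        refine ⟨p, [], b.toList ++ y, rfl, Path.nil p, ?_⟩
        have := Path.cons he hp
        rw [List.nil_append] at hx
        rw [← hx]; exact this
      | cons a' x₁ =>
        simp only [Option.toList_some, List.cons_append, List.nil_append, List.cons.injEq] at hx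
        obtain ⟨rfl, hx⟩ := hx
        obtain ⟨s, v₁, v₂, hv, h1, h2⟩ := ih x₁ x₂ hx
        refine ⟨s, b.toList ++ v₁, v₂, by rw [hv, List.append_assoc], ?_, h2⟩
        exact Path.cons he h1

/-- an additive counter that grows by at most one in each step -/
structure Counter (μ : List A → List B → ℕ) : Prop where
  nil : μ [] [] = 0
  add : ∀ x x' y y', μ (x ++ x') (y ++ y') = μ x y + μ x' y'
  step : ∀ (a : Option A) (b : Option B), μ a.toList b.toList ≤ 1

variable {μ : List A → List B → ℕ}

theorem Path.split1 (hμ : Counter μ) {p r : Q} {x : List A} {v : List B} (h : Path E p x v r)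
    (h1 : 1 ≤ μ x v) : ∃ (s : Q) (x₁ x₂ : List A) (v₁ v₂ : List B), x = x₁ ++ x₂ ∧ v = v₁ ++ v₂ ∧
      Path E p x₁ v₁ s ∧ Path E s x₂ v₂ r ∧ μ x₁ v₁ = 1 := by
  induction h with
  | nil q => rw [hμ.nil] at h1; omega
  | @cons p q r a b x y he hp ih =>
    rw [hμ.add] at h1
    have h2 := hμ.step a b
    by_cases h3 : μ a.toList b.toList = 1
    · refine ⟨q, a.toList, x, b.toList, y, rfl, rfl, ?_, hp, h3⟩
      have := Path.cons he (Path.nil q)
      simpa using this
    · obtain ⟨s, x₁, x₂, v₁, v₂, hx, hv, h4, h5, h6⟩ := ih (by omega)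
      refine ⟨s, a.toList ++ x₁, x₂, b.toList ++ v₁, v₂, by rw [hx, List.append_assoc],
        by rw [hv, List.append_assoc], Path.cons he h4, h5, ?_⟩
      rw [hμ.add]; omega

/-- concatenation of `b` consecutive members starting at `a` -/
def seg {C : Type} (X : ℕ → List C) (a b : ℕ) : List C := ((List.range' a b).map X).flatten

theorem seg_add {C : Type} (X : ℕ → List C) (a b c : ℕ) :
    seg X a (b + c) = seg X a b ++ seg X (a + b) c := by
  rw [seg, seg, seg, ← List.flatten_append, ← List.map_append]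
  congr 2
  rw [List.range'_append_1]

theorem Path.seq (hμ : Counter μ) (N : ℕ) : ∀ {p r : Q} {x : List A} {v : List B},
    Path E p x v r → N ≤ μ x v → ∃ (f : ℕ → Q) (X : ℕ → List A) (V : ℕ → List B) (x' : List A)
      (v' : List B), f 0 = p ∧ (∀ k < N, Path E (f k) (X k) (V k) (f (k + 1)) ∧ μ (X k) (V k) = 1) ∧
      Path E (f N) x' v' r ∧ x = seg X 0 N ++ x' ∧ v = seg V 0 N ++ v' := by
  induction N with
  | zero =>
    intro p r x v h _
    exact ⟨fun _ => p, fun _ => [], fun _ => [], x, v, rfl, fun k hk => absurd hk (by omega), h,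
      by simp [seg], by simp [seg]⟩
  | succ N ih =>
    intro p r x v h hN
    obtain ⟨s, x₁, x₂, v₁, v₂, rfl, rfl, h1, h2, h3⟩ := h.split1 hμ (by omega)
    rw [hμ.add, h3] at hN
    obtain ⟨f, X, V, x', v', hf, hk, hr, hx, hv⟩ := ih h2 (by omega)
    refine ⟨fun n => if n = 0 then p else f (n - 1), fun n => if n = 0 then x₁ else X (n - 1),
      fun n => if n = 0 then v₁ else V (n - 1), x', v', by simp, ?_, by simpa using hr, ?_, ?_⟩
    · intro k hkN
      cases k with
      | zero => simpa [hf] using ⟨h1, h3⟩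
      | succ k => simpa using hk k (by omega)
    · rw [hx, ← List.append_assoc]
      congr 1
      rw [add_comm N 1, seg_add]
      congr 1
      · simp [seg]
      · rw [seg, seg, List.range'_eq_map_range, List.range'_eq_map_range, List.map_map,
          List.map_map]
        congr 1
        refine List.map_congr_left fun k _ => ?_
        simp
    · rw [hv, ← List.append_assoc]
      congr 1
      rw [add_comm N 1, seg_add]
      congr 1
      · simp [seg]
      · rw [seg, seg, List.range'_eq_map_range, List.range'_eq_map_range, List.map_map,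
          List.map_map]
        congr 1
        refine List.map_congr_left fun k _ => ?_
        simp

theorem Path.seg {f : ℕ → Q} {X : ℕ → List A} {V : ℕ → List B} {N : ℕ} (hμ : Counter μ)
    (h : ∀ k < N, Path E (f k) (X k) (V k) (f (k + 1)) ∧ μ (X k) (V k) = 1) (a : ℕ) :
    ∀ b, a + b ≤ N → Path E (f a) (seg X a b) (seg V a b) (f (a + b)) ∧
      μ (NeConeNotMinimal.seg X a b) (NeConeNotMinimal.seg V a b) = b := by
  intro b
  induction b with
  | zero => intro _; simpa [NeConeNotMinimal.seg, hμ.nil] using Path.nil (E := E) (f a)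
  | succ b ih =>
    intro hb
    obtain ⟨h1, h2⟩ := ih (by omega)
    obtain ⟨h3, h4⟩ := h (a + b) (by omega)
    rw [seg_add, seg_add]
    have e1 : NeConeNotMinimal.seg X (a + b) 1 = X (a + b) := by simp [NeConeNotMinimal.seg]
    have e2 : NeConeNotMinimal.seg V (a + b) 1 = V (a + b) := by simp [NeConeNotMinimal.seg]
    rw [e1, e2]
    exact ⟨h1.append h3, by rw [hμ.add, h2, h4]⟩

/-- The cycle lemma. -/
theorem Path.cycle [Finite Q] (hμ : Counter μ) {p r : Q} {x : List A} {v : List B}
    (h : Path E p x v r) (hK : Nat.card Q ≤ μ x v) : ∃ (s : Q) (x₁ x₂ x₃ : List A)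
      (v₁ v₂ v₃ : List B), x = x₁ ++ (x₂ ++ x₃) ∧ v = v₁ ++ (v₂ ++ v₃) ∧ Path E p x₁ v₁ s ∧
      Path E s x₂ v₂ s ∧ Path E s x₃ v₃ r ∧ 1 ≤ μ x₂ v₂ ∧ μ x₂ v₂ ≤ Nat.card Q := by
  obtain ⟨f, X, V, x', v', hf, hk, hr, hx, hv⟩ := h.seq hμ (Nat.card Q) hK
  have hinj : ¬ Function.Injective fun k : Fin (Nat.card Q + 1) => f k := by
    intro hi
    have := Nat.card_le_card_of_injective _ hi
    simp at this
  have : ∃ a b : ℕ, a < b ∧ b ≤ Nat.card Q ∧ f a = f b := by
    rw [Function.Injective] at hinj
    push Not at hinj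
    obtain ⟨a, b, hab, hne⟩ := hinj
    rcases lt_or_gt_of_ne (fun h => hne (Fin.ext h) : (a : ℕ) ≠ b) with h | h
    · exact ⟨a, b, h, by have := b.2; omega, hab⟩
    · exact ⟨b, a, h, by have := a.2; omega, hab.symm⟩
  obtain ⟨a, b, hab, hb, hfab⟩ := this
  obtain ⟨c, rfl⟩ : ∃ c, b = a + c := ⟨b - a, by omega⟩
  obtain ⟨d, hd⟩ : ∃ d, Nat.card Q = a + c + d := ⟨Nat.card Q - (a + c), by omega⟩
  have h1 := (Path.seg hμ hk 0 a (by omega)).1
  have h2 := Path.seg hμ hk a c (by omega)
  have h3 := (Path.seg hμ hk (a + c) d (by omega)).1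
  rw [zero_add, hf] at h1
  rw [← hfab] at h2 h3
  rw [← hd] at h3
  refine ⟨f a, _, _, _, _, _, _, ?_, ?_, h1, h2.1, h3.append hr, by omega, by omega⟩
  · rw [hx, hd, seg_add, seg_add, zero_add, zero_add, List.append_assoc, List.append_assoc]
  · rw [hv, hd, seg_add, seg_add, zero_add, zero_add, List.append_assoc, List.append_assoc]

end path


/-! ### Pumping -/

section pump

variable {A Q : Type} {E : Set (Q × Option A × Option (Fin 2) × Q)}

theorem counter_length {B : Type} : Counter (A := A) (B := B) fun x _ => x.length :=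
  ⟨rfl, fun x x' _ _ => List.length_append, fun a _ => by cases a <;> simp⟩

theorem counter_count (c : Fin 2) : Counter (A := A) (B := Fin 2) fun _ y => y.count c :=
  ⟨rfl, fun _ _ y y' => List.count_append, fun _ b => by
    cases b with
    | none => simp
    | some b =>
      simp only [Option.toList_some]
      exact (List.count_le_length).trans (by simp)⟩

/-- powers of a cycle -/
theorem Path.pow {s : Q} {l : A} {α : ℕ} {u : List (Fin 2)}
    (h : Path E s (List.replicate α l) u s) (k : ℕ) :
    Path E s (List.replicate (k * α) l) (List.replicate k u).flatten s := by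
  induction k with
  | zero => simpa using Path.nil (E := E) s
  | succ k ih =>
    have := h.append ih
    rw [List.replicate_append_replicate] at this
    rw [add_mul, one_mul, add_comm (k * α), List.replicate_succ, List.flatten_cons]
    exact this

theorem count_pow (c : Fin 2) (k : ℕ) (u : List (Fin 2)) :
    ((List.replicate k u).flatten).count c = k * u.count c := by
  induction k with
  | zero => simp
  | succ k ih => rw [List.replicate_succ, List.flatten_cons, List.count_append, ih]; ring

/-- the output `v` contains the square of `u` -/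
def Sq (u v : List (Fin 2)) : Prop := ∃ v₁ v₂ v₃, v = v₁ ++ u ++ v₂ ++ u ++ v₃

/-- `P` pumps: a pumpable reading of `l^n` -/
def Pump (E : Set (Q × Option A × Option (Fin 2) × Q)) (p r : Q) (l : A) (n : ℕ)
    (v : List (Fin 2)) (α : ℕ) (u : List (Fin 2)) : Prop :=
  ∀ k : ℕ, ∃ v' : List (Fin 2), Path E p (List.replicate (n + k * α) l) v' r ∧
    (∀ c, v'.count c = v.count c + k * u.count c) ∧ (2 ≤ k → Sq u v')

/-- The pumping lemma inside a phase. -/
theorem Path.pump' [Finite Q] {μ : List A → List (Fin 2) → ℕ} (hμ : Counter μ) {p r : Q} {l : A}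
    {n : ℕ} {v : List (Fin 2)} (h : Path E p (List.replicate n l) v r)
    (hK : Nat.card Q ≤ μ (List.replicate n l) v) :
    ∃ (s : Q) (n₁ α n₃ : ℕ) (v₁ u v₃ : List (Fin 2)), n = n₁ + α + n₃ ∧ v = v₁ ++ (u ++ v₃) ∧
      Path E p (List.replicate n₁ l) v₁ s ∧ Path E s (List.replicate α l) u s ∧
      Path E s (List.replicate n₃ l) v₃ r ∧ 1 ≤ μ (List.replicate α l) u ∧
      μ (List.replicate α l) u ≤ Nat.card Q := by
  obtain ⟨s, x₁, x₂, x₃, v₁, v₂, v₃, hx, hv, h1, h2, h3, h4, h5⟩ := h.cycle hμ hK
  obtain ⟨hl, hx1, hx23⟩ := List.append_eq_replicate_iff.1 hx.symm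
  obtain ⟨hl', hx2, hx3⟩ := List.append_eq_replicate_iff.1 hx23
  rw [hx1] at h1
  rw [hx2] at h2 h4 h5
  rw [hx3] at h3
  refine ⟨s, x₁.length, x₂.length, x₃.length, v₁, v₂, v₃, ?_, hv, h1, h2, h3, h4, h5⟩
  rw [List.length_append] at hl hl'
  omega

theorem pump_of_cycle {p s r : Q} {l : A} {n₁ α n₃ : ℕ} {v₁ u v₃ : List (Fin 2)}
    (h1 : Path E p (List.replicate n₁ l) v₁ s) (h2 : Path E s (List.replicate α l) u s)
    (h3 : Path E s (List.replicate n₃ l) v₃ r) :
    Pump E p r l (n₁ + n₃) (v₁ ++ v₃) α u := by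
  intro k
  refine ⟨v₁ ++ ((List.replicate k u).flatten ++ v₃), ?_, ?_, ?_⟩
  · have := h1.append ((h2.pow k).append h3)
    rw [List.replicate_append_replicate, List.replicate_append_replicate] at this
    have e : n₁ + n₃ + k * α = n₁ + (k * α + n₃) := by ring
    rw [e]; exact this
  · intro c
    rw [List.count_append, List.count_append, List.count_append, count_pow]; ring
  · intro hk
    obtain ⟨j, rfl⟩ : ∃ j, k = 2 + j := ⟨k - 2, by omega⟩
    refine ⟨v₁, [], (List.replicate j u).flatten ++ v₃, ?_⟩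
    rw [List.replicate_add, List.flatten_append]
    simp [List.replicate_succ]

end pump

/-! ### The three phases -/

section phases

variable {Q : Type} {E : Set (Q × Option (Fin 3) × Option (Fin 2) × Q)}

theorem path_W {i f : Q} {n m p : ℕ} {v : List (Fin 2)} :
    Path E i (W n m p) v f ↔ ∃ (q₁ q₂ : Q) (v₁ v₂ v₃ : List (Fin 2)), v = v₁ ++ (v₂ ++ v₃) ∧
      Path E i (List.replicate n 0) v₁ q₁ ∧ Path E q₁ (List.replicate m 1) v₂ q₂ ∧
      Path E q₂ (List.replicate p 2) v₃ f := by
  constructor
  · intro h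
    obtain ⟨q₁, v₁, v', hv, h1, h2⟩ := h.split _ _ rfl
    obtain ⟨q₂, v₂, v₃, hv', h3, h4⟩ := h2.split _ _ rfl
    exact ⟨q₁, q₂, v₁, v₂, v₃, by rw [hv, hv'], h1, h3, h4⟩
  · rintro ⟨q₁, q₂, v₁, v₂, v₃, rfl, h1, h2, h3⟩
    exact h1.append (h2.append h3)

/-- good outputs -/
def Good (v : List (Fin 2)) : Prop := v.Pairwise (· ≤ ·) ∧ v.count 0 ≠ v.count 1

theorem pure_of_sq {u v : List (Fin 2)} (hv : v.Pairwise (· ≤ ·)) (h : Sq u v) (c : Fin 2)
    (hc : c ∈ u) : u = List.replicate u.length c := by
  obtain ⟨v₁, v₂, v₃, rfl⟩ := h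
  rw [List.eq_replicate_iff]
  refine ⟨rfl, fun b hb => ?_⟩
  have h1 : ∀ x ∈ u, ∀ y ∈ u, x ≤ y := by
    intro x hx y hy
    have h2 := (List.pairwise_append.1 hv).1
    exact (List.pairwise_append.1 h2).2.2 x (by simp [hx]) y hy
  exact le_antisymm (h1 b hb c hc) (h1 c hc b hb)

theorem Path.fam [Finite Q] {p r : Q} {l : Fin 3} {n : ℕ} {v : List (Fin 2)}
    (h : Path E p (List.replicate n l) v r) (c : Fin 2) (hK : Nat.card Q ≤ v.count c) :
    ∃ (β : ℕ) (u : List (Fin 2)), 1 ≤ u.count c ∧ u.count c ≤ Nat.card Q ∧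
      Pump E p r l n v β u := by
  obtain ⟨t, a, β, b, x₁, u', x₃, hn, hv, g1, g2, g3, g4, g5⟩ := h.pump' (counter_count c) hK
  refine ⟨β, u', g4, g5, fun k => ?_⟩
  obtain ⟨y, hy1, hy2, hy3⟩ := pump_of_cycle g1 g2 g3 (k + 1)
  refine ⟨y, ?_, fun c => ?_, fun hk => hy3 (by omega)⟩
  · have e : n + k * β = a + b + (k + 1) * β := by rw [hn]; ring
    rw [e]; exact hy1
  · rw [hy2, hv]
    simp only [List.count_append]
    ring

theorem Sq.left {u v : List (Fin 2)} (h : Sq u v) (w : List (Fin 2)) : Sq u (w ++ v) := by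
  obtain ⟨a, b, d, rfl⟩ := h
  exact ⟨w ++ a, b, d, by simp⟩

theorem Sq.right {u v : List (Fin 2)} (h : Sq u v) (w : List (Fin 2)) : Sq u (v ++ w) := by
  obtain ⟨a, b, d, rfl⟩ := h
  exact ⟨a, b, d ++ w, by simp⟩

theorem Sq.pow {k : ℕ} (u : List (Fin 2)) (hk : 2 ≤ k) : Sq u (List.replicate k u).flatten := by
  obtain ⟨j, rfl⟩ : ∃ j, k = 2 + j := ⟨k - 2, by omega⟩
  refine ⟨[], [], (List.replicate j u).flatten, ?_⟩
  rw [List.replicate_add, List.flatten_append]
  simp [List.replicate_succ]

/-- A family of accepted words with two pumping parameters. -/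
theorem two_pumps {i f q₁ q₂ s : Q} {n₁ α n₃ m p : ℕ} {v₁ u v₃ w₂ w₃ : List (Fin 2)} [Finite Q]
    (h1 : Path E i (List.replicate n₁ 0) v₁ s) (h2 : Path E s (List.replicate α 0) u s)
    (h3 : Path E s (List.replicate n₃ 0) v₃ q₁) (h4 : Path E q₁ (List.replicate m 1) w₂ q₂)
    (h5 : Path E q₂ (List.replicate p 2) w₃ f) (c : Fin 2)
    (hc : 4 * Nat.card Q ≤ v₁.count c + v₃.count c + w₂.count c + w₃.count c) :
    ∃ (e₁ e₂ e₃ : ℕ) (u' : List (Fin 2)), (e₂ = 0 ∨ e₃ = 0) ∧ 1 ≤ u'.count c ∧
      ∀ k k' : ℕ, ∃ v', Path E i (W (n₁ + n₃ + k * α + k' * e₁) (m + k' * e₂) (p + k' * e₃)) v' f ∧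
        (∀ c, v'.count c = (v₁.count c + v₃.count c + w₂.count c + w₃.count c) +
          k * u.count c + k' * u'.count c) ∧ (2 ≤ k → Sq u v') ∧ (2 ≤ k' → Sq u' v') := by
  have hcases : Nat.card Q ≤ v₁.count c ∨ Nat.card Q ≤ v₃.count c ∨ Nat.card Q ≤ w₂.count c ∨
      Nat.card Q ≤ w₃.count c := by omega
  rcases hcases with h | h | h | h
  · obtain ⟨β, u', hu', -, hP⟩ := h1.fam c h
    refine ⟨β, 0, 0, u', Or.inl rfl, hu', fun k k' => ?_⟩
    obtain ⟨y, hy1, hy2, hy3⟩ := hP k'
    refine ⟨y ++ ((List.replicate k u).flatten ++ v₃) ++ (w₂ ++ w₃), ?_, fun c => ?_,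
      fun hk => ?_, fun hk => ?_⟩
    · rw [path_W]
      refine ⟨q₁, q₂, y ++ ((List.replicate k u).flatten ++ v₃), w₂, w₃, rfl, ?_, by simpa using h4,
        by simpa using h5⟩
      have := hy1.append ((h2.pow k).append h3)
      rw [List.replicate_append_replicate, List.replicate_append_replicate] at this
      have e : n₁ + n₃ + k * α + k' * β = n₁ + k' * β + (k * α + n₃) := by ring
      rw [e]; exact this
    · simp only [List.count_append, count_pow, hy2]; ring
    · exact (((Sq.pow u hk).right _).left _).right _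
    · exact ((hy3 hk).right _).right _
  · obtain ⟨β, u', hu', -, hP⟩ := h3.fam c h
    refine ⟨β, 0, 0, u', Or.inl rfl, hu', fun k k' => ?_⟩
    obtain ⟨y, hy1, hy2, hy3⟩ := hP k'
    refine ⟨v₁ ++ ((List.replicate k u).flatten ++ y) ++ (w₂ ++ w₃), ?_, fun c => ?_,
      fun hk => ?_, fun hk => ?_⟩
    · rw [path_W]
      refine ⟨q₁, q₂, v₁ ++ ((List.replicate k u).flatten ++ y), w₂, w₃, rfl, ?_, by simpa using h4,
        by simpa using h5⟩
      have := h1.append ((h2.pow k).append hy1)
      rw [List.replicate_append_replicate, List.replicate_append_replicate] at this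
      have e : n₁ + n₃ + k * α + k' * β = n₁ + (k * α + (n₃ + k' * β)) := by ring
      rw [e]; exact this
    · simp only [List.count_append, count_pow, hy2]; ring
    · exact (((Sq.pow u hk).right _).left _).right _
    · exact (((hy3 hk).left _).left _).right _
  · obtain ⟨β, u', hu', -, hP⟩ := h4.fam c h
    refine ⟨0, β, 0, u', Or.inr rfl, hu', fun k k' => ?_⟩
    obtain ⟨y, hy1, hy2, hy3⟩ := hP k'
    refine ⟨v₁ ++ ((List.replicate k u).flatten ++ v₃) ++ (y ++ w₃), ?_, fun c => ?_,
      fun hk => ?_, fun hk => ?_⟩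
    · rw [path_W]
      refine ⟨q₁, q₂, v₁ ++ ((List.replicate k u).flatten ++ v₃), y, w₃, rfl, ?_, hy1,
        by simpa using h5⟩
      have := h1.append ((h2.pow k).append h3)
      rw [List.replicate_append_replicate, List.replicate_append_replicate] at this
      have e : n₁ + n₃ + k * α + k' * 0 = n₁ + (k * α + n₃) := by ring
      rw [e]; exact this
    · simp only [List.count_append, count_pow, hy2]; ring
    · exact (((Sq.pow u hk).right _).left _).right _
    · exact ((hy3 hk).right _).left _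
  · obtain ⟨β, u', hu', -, hP⟩ := h5.fam c h
    refine ⟨0, 0, β, u', Or.inl rfl, hu', fun k k' => ?_⟩
    obtain ⟨y, hy1, hy2, hy3⟩ := hP k'
    refine ⟨v₁ ++ ((List.replicate k u).flatten ++ v₃) ++ (w₂ ++ y), ?_, fun c => ?_,
      fun hk => ?_, fun hk => ?_⟩
    · rw [path_W]
      refine ⟨q₁, q₂, v₁ ++ ((List.replicate k u).flatten ++ v₃), w₂, y, rfl, ?_,
        by simpa using h4, hy1⟩
      have := h1.append ((h2.pow k).append h3)
      rw [List.replicate_append_replicate, List.replicate_append_replicate] at this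
      have e : n₁ + n₃ + k * α + k' * 0 = n₁ + (k * α + n₃) := by ring
      rw [e]; exact this
    · simp only [List.count_append, count_pow, hy2]; ring
    · exact (((Sq.pow u hk).right _).left _).right _
    · exact ((hy3 hk).left _).left _

/-- The claim: large diagonal inputs do not produce large balanced outputs. -/
theorem claim [Finite Q] {i f : Q}
    (H : ∀ n m p v, ¬ (n = m ∧ m = p) → Path E i (W n m p) v f → Good v)
    {n j : ℕ} {v : List (Fin 2)} (h : Path E i (W n n n) v f) (hn : Nat.card Q ≤ n)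
    (hv0 : v.count 0 = j) (hv1 : v.count 1 = j) (hj : 4 * Nat.card Q ≤ j) : False := by
  obtain ⟨q₁, q₂, v₁', w₂, w₃, hv, h1, h2, h3⟩ := path_W.1 h
  obtain ⟨s, n₁, α, n₃, v₁, u, v₃, hn', hv', g1, g2, g3, g4, -⟩ :=
    h1.pump' counter_length (by simpa using hn)
  rw [List.length_replicate] at g4
  -- the first cycle is a power of one letter
  have base : ∀ k, ∃ v', Path E i (W (n₁ + n₃ + k * α) n n) v' f ∧
      (∀ c, v'.count c = (v₁.count c + v₃.count c + w₂.count c + w₃.count c) + k * u.count c) ∧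
      (2 ≤ k → Sq u v') := by
    intro k
    refine ⟨v₁ ++ ((List.replicate k u).flatten ++ v₃) ++ (w₂ ++ w₃), ?_, fun c => ?_,
      fun hk => (((Sq.pow u hk).right _).left _).right _⟩
    · rw [path_W]
      refine ⟨q₁, q₂, _, w₂, w₃, rfl, ?_, h2, h3⟩
      have := g1.append ((g2.pow k).append g3)
      rw [List.replicate_append_replicate, List.replicate_append_replicate] at this
      have e : n₁ + n₃ + k * α = n₁ + (k * α + n₃) := by ring
      rw [e]; exact this
    · simp only [List.count_append, count_pow]; ring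
  have hc0 : ∀ c, v.count c = (v₁.count c + v₃.count c + w₂.count c + w₃.count c) +
      u.count c := by
    intro c
    rw [hv, hv']
    simp only [List.count_append]; ring
  obtain ⟨v', hv'1, hv'2, hv'3⟩ := base 2
  have hgood := H _ _ _ _ (by rintro ⟨h, -⟩; rw [hn'] at h; omega) hv'1
  have hsq := hv'3 le_rfl
  -- the letter of the first cycle
  obtain ⟨c, hcu, hpure⟩ : ∃ c, 1 ≤ u.count c ∧ u = List.replicate u.length c := by
    by_cases hu : u = []
    · exfalso
      apply hgood.2
      have e0 := hc0 0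
      have e1 := hc0 1
      rw [hv'2, hv'2]
      rw [hv0] at e0
      rw [hv1] at e1
      rw [hu] at e0 e1 ⊢
      simp only [List.count_nil] at *
      omega
    · obtain ⟨c, hc⟩ := List.exists_mem_of_ne_nil u hu
      exact ⟨c, List.count_pos_iff.2 hc, pure_of_sq hgood.1 hsq c hc⟩
  have hex : ∀ c : Fin 2, ∃ d : Fin 2, d ≠ c := by decide
  obtain ⟨d, hdc⟩ := hex c
  have hud : u.count d = 0 := by
    rw [hpure, List.count_replicate]; simp [hdc.symm]
  have hvd : ∀ c : Fin 2, v.count c = j := by
    intro c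
    fin_cases c
    · exact hv0
    · exact hv1
  obtain ⟨e₁, e₂, e₃, u', he, hu'd, hfam⟩ := two_pumps g1 g2 g3 h2 h3 d (by
    have := hc0 d
    rw [hvd d, hud] at this
    omega)
  have hne : ∀ k k', 2 ≤ k → ¬ (n₁ + n₃ + k * α + k' * e₁ = n + k' * e₂ ∧
      n + k' * e₂ = n + k' * e₃) := by
    rintro k k' hk ⟨ha, hb⟩
    have hkα : 2 * α ≤ k * α := Nat.mul_le_mul_right _ hk
    rcases he with rfl | rfl
    · rw [mul_zero, add_zero] at ha
      omega
    · rw [mul_zero, add_zero] at hb
      omega
  -- the second cycle is pure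
  obtain ⟨z, hz1, hz2, hz3, hz4⟩ := hfam 2 2
  have hgz := H _ _ _ _ (hne 2 2 le_rfl) hz1
  have hpure' := pure_of_sq hgz.1 (hz4 le_rfl) d (List.count_pos_iff.1 hu'd)
  have hu'c : u'.count c = 0 := by
    rw [hpure', List.count_replicate]; simp [hdc]
  obtain ⟨y, hy1, hy2, hy3, hy4⟩ := hfam (2 * u'.count d + 1) (2 * u.count c)
  have hgy := H _ _ _ _ (hne _ _ (by omega)) hy1
  apply hgy.2
  have key : ∀ b : Fin 2, y.count b = j + 2 * u'.count d * u.count c := by
    intro b
    have hall : ∀ b c d : Fin 2, d ≠ c → b = c ∨ b = d := by decide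
    have hb := hall b c d hdc
    rw [hy2]
    rcases hb with rfl | rfl
    · have := hc0 b
      rw [hvd b] at this
      rw [hu'c, mul_zero, add_zero]
      rw [this]; ring
    · have := hc0 b
      rw [hvd b, hud] at this
      rw [hud, mul_zero, this]; ring
  rw [key, key]

end phases


/-! ### `sNe` is not an image of `L3` -/

theorem good_of_sNe {v : List (Fin 2)} (h : v ∈ sNe) : Good v := by
  obtain ⟨m, n, hmn, rfl⟩ := h
  refine ⟨?_, ?_⟩
  · rw [List.pairwise_append]
    refine ⟨by simp [List.pairwise_replicate], by simp [List.pairwise_replicate], ?_⟩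
    intro a ha b hb
    rw [List.eq_of_mem_replicate ha]
    exact Fin.zero_le _
  · simp only [List.count_append, List.count_replicate]
    simpa using fun h => hmn h.symm

/-- pumping one phase of three -/
theorem one_pump {Q : Type} {E : Set (Q × Option (Fin 3) × Option (Fin 2) × Q)} [Finite Q]
    {i f : Q} {n m p : ℕ} {v : List (Fin 2)} (h : Path E i (W n m p) v f)
    (hc : 3 * Nat.card Q ≤ v.count 0) :
    ∃ (e₁ e₂ e₃ : ℕ) (u : List (Fin 2)), (e₁ = 0 ∨ e₂ = 0 ∨ e₃ = 0) ∧ 1 ≤ u.count 0 ∧
      u.count 0 ≤ Nat.card Q ∧ ∀ k : ℕ, ∃ v', Path E i (W (n + k * e₁) (m + k * e₂) (p + k * e₃)) v' f ∧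
        (∀ c, v'.count c = v.count c + k * u.count c) ∧ (2 ≤ k → Sq u v') := by
  obtain ⟨q₁, q₂, v₁, v₂, v₃, rfl, h1, h2, h3⟩ := path_W.1 h
  have hcases : Nat.card Q ≤ v₁.count 0 ∨ Nat.card Q ≤ v₂.count 0 ∨ Nat.card Q ≤ v₃.count 0 := by
    simp only [List.count_append] at hc
    omega
  rcases hcases with h | h | h
  · obtain ⟨β, u, hu, hu', hP⟩ := h1.fam 0 h
    refine ⟨β, 0, 0, u, by simp, hu, hu', fun k => ?_⟩
    obtain ⟨y, hy1, hy2, hy3⟩ := hP k
    refine ⟨y ++ (v₂ ++ v₃), ?_, fun c => ?_, fun hk => (hy3 hk).right _⟩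
    · rw [path_W]
      exact ⟨q₁, q₂, y, v₂, v₃, rfl, hy1, by simpa using h2, by simpa using h3⟩
    · simp only [List.count_append, hy2]; ring
  · obtain ⟨β, u, hu, hu', hP⟩ := h2.fam 0 h
    refine ⟨0, β, 0, u, by simp, hu, hu', fun k => ?_⟩
    obtain ⟨y, hy1, hy2, hy3⟩ := hP k
    refine ⟨v₁ ++ (y ++ v₃), ?_, fun c => ?_, fun hk => ((hy3 hk).right _).left _⟩
    · rw [path_W]
      exact ⟨q₁, q₂, v₁, y, v₃, rfl, by simpa using h1, hy1, by simpa using h3⟩
    · simp only [List.count_append, hy2]; ring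
  · obtain ⟨β, u, hu, hu', hP⟩ := h3.fam 0 h
    refine ⟨0, 0, β, u, by simp, hu, hu', fun k => ?_⟩
    obtain ⟨y, hy1, hy2, hy3⟩ := hP k
    refine ⟨v₁ ++ (v₂ ++ y), ?_, fun c => ?_, fun hk => ((hy3 hk).left _).left _⟩
    · rw [path_W]
      exact ⟨q₁, q₂, v₁, v₂, y, rfl, by simpa using h1, by simpa using h2, hy1⟩
    · simp only [List.count_append, hy2]; ring

theorem not_image (M : Transducer (Fin 3) (Fin 2)) : M.image L3 ≠ sNe := by
  intro hM
  have := M.fin
  have H : ∀ i ∈ M.I, ∀ f ∈ M.F, ∀ n m p v, ¬ (n = m ∧ m = p) → Path M.E i (W n m p) v f →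
      Good v := by
    intro i hi f hf n m p v hne hP
    apply good_of_sNe
    rw [← hM]
    exact ⟨W n m p, ⟨n, m, p, hne, rfl⟩, i, hi, f, hf, hP⟩
  set K := Nat.card M.Q with hK
  -- the pair
  have hmem : List.replicate (4 * K) 0 ++ List.replicate (4 * K + (K + 2).factorial * (K + 1)) 1 ∈
      sNe := by
    refine ⟨_, _, ?_, rfl⟩
    have := Nat.factorial_pos (K + 2)
    have : 0 < (K + 2).factorial * (K + 1) := by positivity
    omega
  rw [← hM] at hmem
  obtain ⟨w, ⟨n, m, p, hw, rfl⟩, i, hi, f, hf, hP⟩ := hmem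
  obtain ⟨e₁, e₂, e₃, u, he, hu1, huK, hfam⟩ := one_pump hP (by
    simp only [List.count_append, List.count_replicate]
    simp; omega)
  have hcount : ∀ c : Fin 2, (List.replicate (4 * K) (0 : Fin 2) ++
      List.replicate (4 * K + (K + 2).factorial * (K + 1)) 1).count c =
      if c = 0 then 4 * K else 4 * K + (K + 2).factorial * (K + 1) := by
    intro c
    simp only [List.count_append, List.count_replicate]
    fin_cases c <;> simp
  -- purity
  have hpure : u = List.replicate u.length 0 := by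
    have h23 : ∃ k, 2 ≤ k ∧ ¬ (n + k * e₁ = m + k * e₂ ∧ m + k * e₂ = p + k * e₃) := by
      by_contra hcon
      push Not at hcon
      have h2 := hcon 2 le_rfl
      have h3 := hcon 3 (by norm_num)
      apply hw
      obtain ⟨a1, a2⟩ := h2
      obtain ⟨b1, b2⟩ := h3
      constructor <;> omega
    obtain ⟨k, hk, hne⟩ := h23
    obtain ⟨v', h1, -, h3⟩ := hfam k
    exact pure_of_sq (H i hi f hf _ _ _ _ hne h1).1 (h3 hk) 0 (List.count_pos_iff.1 hu1)
  have hu1c : u.count 1 = 0 := by
    rw [hpure, List.count_replicate]; simp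
  obtain ⟨k, hk⟩ : ∃ k, k * u.count 0 = (K + 2).factorial := by
    obtain ⟨k, hk⟩ := Nat.dvd_factorial hu1 (huK.trans (Nat.le_add_right K 2))
    exact ⟨k, by rw [hk]; ring⟩
  have hkpos : 1 ≤ k := by
    rcases Nat.eq_zero_or_pos k with h | h
    · rw [h, zero_mul] at hk
      exact absurd hk.symm (Nat.factorial_pos _).ne'
    · exact h
  obtain ⟨v', h1, h2, -⟩ := hfam (k * (K + 1))
  have c0 : v'.count 0 = 4 * K + (K + 2).factorial * (K + 1) := by
    rw [h2, hcount, if_pos rfl, ← hk]; ring
  have c1 : v'.count 1 = 4 * K + (K + 2).factorial * (K + 1) := by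
    rw [h2, hcount, hu1c, if_neg (by decide)]; ring
  by_cases hne : n + k * (K + 1) * e₁ = m + k * (K + 1) * e₂ ∧
      m + k * (K + 1) * e₂ = p + k * (K + 1) * e₃
  · obtain ⟨ha, hb⟩ := hne
    rw [← hb, ← ha] at h1
    refine claim (H i hi f hf) h1 ?_ c0 c1 (Nat.le_add_right _ _)
    by_contra hlt
    push Not at hlt
    have hbig : ∀ e, 1 ≤ e → K < k * (K + 1) * e := by
      intro e he
      have : 1 * (K + 1) * 1 ≤ k * (K + 1) * e := by gcongr
      omega
    have z1 : e₁ = 0 := by
      by_contra h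
      have := hbig e₁ (Nat.one_le_iff_ne_zero.2 h)
      omega
    have z2 : e₂ = 0 := by
      by_contra h
      have := hbig e₂ (Nat.one_le_iff_ne_zero.2 h)
      omega
    have z3 : e₃ = 0 := by
      by_contra h
      have := hbig e₃ (Nat.one_le_iff_ne_zero.2 h)
      omega
    rw [z1, z2] at ha
    rw [z2, z3] at hb
    simp only [mul_zero, add_zero] at ha hb
    exact hw ⟨ha, hb⟩
  · exact (H i hi f hf _ _ _ _ hne h1).2 (c0.trans c1.symm)


/-! ### Transductions compose -/

section comp

variable {A B C : Type}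

/-- the identity transducer -/
def idT (A : Type) : Transducer A A where
  Q := Unit
  fin := inferInstance
  E := {e | ∃ a : A, e = ((), some a, some a, ())}
  I := Set.univ
  F := Set.univ

theorem idT_rel (x y : List A) : (idT A).rel x y ↔ x = y := by
  constructor
  · rintro ⟨i, -, f, -, h⟩
    induction h with
    | nil q => rfl
    | @cons p q r a' b' x y he _ ih =>
      obtain ⟨a, ha⟩ := he
      have h1 : a' = some a := congrArg (fun e => e.2.1) ha
      have h2 : b' = some a := congrArg (fun e => e.2.2.1) ha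
      rw [h1, h2, ih]
  · rintro rfl
    refine ⟨(), trivial, (), trivial, ?_⟩
    induction x with
    | nil => exact Path.nil _
    | cons a x ih =>
      have he : ((), some a, some a, ()) ∈ (idT A).E := ⟨a, rfl⟩
      exact Path.cons he ih

/-- composition of transducers -/
def comp (M : Transducer A B) (N : Transducer B C) : Transducer A C where
  Q := M.Q × N.Q
  fin := by have := M.fin; have := N.fin; infer_instance
  E := {e | (∃ p q s t a b c, e = ((p, s), a, c, (q, t)) ∧ (p, a, some b, q) ∈ M.E ∧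
      (s, some b, c, t) ∈ N.E) ∨ (∃ p q s a, e = ((p, s), a, none, (q, s)) ∧
      (p, a, none, q) ∈ M.E) ∨ (∃ p s t c, e = ((p, s), none, c, (p, t)) ∧
      (s, none, c, t) ∈ N.E)}
  I := {q | q.1 ∈ M.I ∧ q.2 ∈ N.I}
  F := {q | q.1 ∈ M.F ∧ q.2 ∈ N.F}

theorem comp_sound (M : Transducer A B) (N : Transducer B C) {P P' : M.Q × N.Q} {x : List A}
    {z : List C} (h : Path (comp M N).E P x z P') : ∃ y, Path M.E P.1 x y P'.1 ∧
      Path N.E P.2 y z P'.2 := by
  induction h with
  | nil q => exact ⟨[], Path.nil _, Path.nil _⟩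
  | @cons P R P' a c x z he _ ih =>
    obtain ⟨y, h1, h2⟩ := ih
    rcases he with ⟨p, q, s, t, a', b, c', heq, hM, hN⟩ | ⟨p, q, s, a', heq, hM⟩ |
      ⟨p, s, t, c', heq, hN⟩
    · simp only [Prod.mk.injEq] at heq
      obtain ⟨rfl, rfl, rfl, rfl⟩ := heq
      exact ⟨[b] ++ y, Path.cons hM h1, Path.cons hN h2⟩
    · simp only [Prod.mk.injEq] at heq
      obtain ⟨rfl, rfl, rfl, rfl⟩ := heq
      refine ⟨y, ?_, by simpa using h2⟩
      have := Path.cons hM h1
      simpa using this
    · simp only [Prod.mk.injEq] at heq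
      obtain ⟨rfl, rfl, rfl, rfl⟩ := heq
      refine ⟨y, by simpa using h1, ?_⟩
      have := Path.cons hN h2
      simpa using this

/-- moves of the second component alone -/
theorem comp_right (M : Transducer A B) (N : Transducer B C) {s t : N.Q} {z : List C}
    (p : M.Q) {y : List B} (h : Path N.E s y z t) (hy : y = []) :
    Path (comp M N).E (p, s) [] z (p, t) := by
  induction h with
  | nil q => exact Path.nil _
  | @cons s r t b c y z he _ ih =>
    cases b with
    | some b => simp at hy
    | none =>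
      have h1 := ih (by simpa using hy)
      have he' : ((p, s), none, c, (p, r)) ∈ (comp M N).E := Or.inr (Or.inr ⟨p, s, r, c, rfl, he⟩)
      have := Path.cons he' h1
      simpa using this

/-- reading one letter of the middle word -/
theorem comp_letter (N : Transducer B C) {s t : N.Q} {z : List C} {y : List B}
    (h : Path N.E s y z t) : ∀ b y', y = b :: y' → ∃ (s' t' : N.Q) (c : Option C) (z₁ z₂ : List C),
      z = z₁ ++ (c.toList ++ z₂) ∧ Path N.E s [] z₁ s' ∧ (s', some b, c, t') ∈ N.E ∧
      Path N.E t' y' z₂ t := by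
  induction h with
  | nil q => intro b y' h; simp at h
  | @cons s r t b' c y z he hp ih =>
    intro b y' hy
    cases b' with
    | none =>
      obtain ⟨s', t', c', z₁, z₂, hz, h1, h2, h3⟩ := ih b y' (by simpa using hy)
      refine ⟨s', t', c', c.toList ++ z₁, z₂, by rw [hz]; simp, ?_, h2, h3⟩
      have := Path.cons he h1
      simpa using this
    | some b' =>
      simp only [Option.toList_some, List.cons_append, List.nil_append, List.cons.injEq] at hy
      obtain ⟨rfl, rfl⟩ := hy
      exact ⟨s, r, c, [], z, rfl, Path.nil _, he, hp⟩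

theorem comp_complete (M : Transducer A B) (N : Transducer B C) {p q : M.Q} {x : List A}
    {y : List B} (h : Path M.E p x y q) : ∀ {s t : N.Q} {z : List C}, Path N.E s y z t →
      Path (comp M N).E (p, s) x z (q, t) := by
  induction h with
  | nil q => intro s t z h2; exact comp_right M N q h2 rfl
  | @cons p r q a b x y he _ ih =>
    intro s t z h2
    cases b with
    | none =>
      have h3 := ih (by simpa using h2)
      have he' : ((p, s), a, none, (r, s)) ∈ (comp M N).E :=
        Or.inr (Or.inl ⟨p, r, s, a, rfl, he⟩)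
      have := Path.cons he' h3
      simpa using this
    | some b =>
      obtain ⟨s', t', c, z₁, z₂, rfl, h3, h4, h5⟩ := comp_letter N h2 b y rfl
      have h6 := comp_right M N p h3 rfl
      have he' : ((p, s'), a, c, (r, t')) ∈ (comp M N).E :=
        Or.inl ⟨p, r, s', t', a, b, c, rfl, he, h4⟩
      have h7 := Path.cons he' (ih h5)
      have := h6.append h7
      simpa using this

theorem comp_image (M : Transducer A B) (N : Transducer B C) (L : Set (List A)) :
    (comp M N).image L = N.image (M.image L) := by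
  ext z
  constructor
  · rintro ⟨x, hx, i, hi, f, hf, h⟩
    obtain ⟨y, h1, h2⟩ := comp_sound M N h
    exact ⟨y, ⟨x, hx, i.1, hi.1, f.1, hf.1, h1⟩, i.2, hi.2, f.2, hf.2, h2⟩
  · rintro ⟨y, ⟨x, hx, i, hi, f, hf, h1⟩, i', hi', f', hf', h2⟩
    exact ⟨x, hx, (i, i'), ⟨hi, hi'⟩, (f, f'), ⟨hf, hf'⟩, comp_complete M N h1 h2⟩

/-- every member of the cone generated by `L` is the image of `L` under one transducer -/
theorem mem_T {L : Set (List A)} {K : Set (List B)} (h : K ∈ T L B) :
    ∃ M : Transducer A B, K = M.image L := by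
  refine h (fun B => {K | ∃ M : Transducer A B, K = M.image L}) ?_ ?_
  · intro B C _ _ N K hK
    obtain ⟨M, rfl⟩ := hK
    exact ⟨comp M N, (comp_image M N L).symm⟩
  · refine ⟨idT A, ?_⟩
    ext x
    constructor
    · intro hx
      exact ⟨x, hx, (idT_rel x x).2 rfl⟩
    · rintro ⟨y, hy, h⟩
      rw [← (idT_rel y x).1 h]; exact hy

end comp

/-! ### `L3` lies in the cone, is bounded and not regular -/

/-- the transitions of the transducer producing `L3` from `sNe` -/
def E3 : Set (Fin 6 × Option (Fin 2) × Option (Fin 3) × Fin 6) :=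
  {(0, some 0, some 0, 0), (0, none, none, 1), (1, some 1, some 1, 1), (1, none, none, 2),
    (2, none, some 2, 2), (3, none, some 0, 3), (3, none, none, 4), (4, some 0, some 1, 4),
    (4, none, none, 5), (5, some 1, some 2, 5)}

/-- the transducer producing `L3` from `sNe` -/
def T3 : Transducer (Fin 2) (Fin 3) where
  Q := Fin 6
  fin := inferInstance
  E := E3
  I := ({0, 3} : Set (Fin 6))
  F := ({2, 5} : Set (Fin 6))

/-- shape of the accepted pairs from a state -/
def Shape : Fin 6 → List (Fin 2) → List (Fin 3) → Prop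
  | 0, x, v => ∃ n m p, x = List.replicate n 0 ++ List.replicate m 1 ∧ v = W n m p
  | 1, x, v => ∃ m p, x = List.replicate m 1 ∧ v = List.replicate m 1 ++ List.replicate p 2
  | 2, x, v => ∃ p, x = [] ∧ v = List.replicate p 2
  | 3, x, v => ∃ n m p, x = List.replicate m 0 ++ List.replicate p 1 ∧ v = W n m p
  | 4, x, v => ∃ m p, x = List.replicate m 0 ++ List.replicate p 1 ∧
      v = List.replicate m 1 ++ List.replicate p 2
  | 5, x, v => ∃ p, x = List.replicate p 1 ∧ v = List.replicate p 2

theorem T3_sound {p q : Fin 6} {x : List (Fin 2)} {v : List (Fin 3)} (h : Path E3 p x v q)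
    (hq : q = 2 ∨ q = 5) : Shape p x v := by
  induction h with
  | nil q =>
    rcases hq with rfl | rfl
    · exact ⟨0, rfl, rfl⟩
    · exact ⟨0, rfl, rfl⟩
  | @cons p r q a b x v he _ ih =>
    have h := ih hq
    simp only [E3, Set.mem_insert_iff, Set.mem_singleton_iff, Prod.mk.injEq] at he
    rcases he with ⟨rfl, rfl, rfl, rfl⟩ | ⟨rfl, rfl, rfl, rfl⟩ | ⟨rfl, rfl, rfl, rfl⟩ |
      ⟨rfl, rfl, rfl, rfl⟩ | ⟨rfl, rfl, rfl, rfl⟩ | ⟨rfl, rfl, rfl, rfl⟩ | ⟨rfl, rfl, rfl, rfl⟩ |
      ⟨rfl, rfl, rfl, rfl⟩ | ⟨rfl, rfl, rfl, rfl⟩ | ⟨rfl, rfl, rfl, rfl⟩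
    · obtain ⟨n, m, p, rfl, rfl⟩ := h
      exact ⟨n + 1, m, p, by simp [List.replicate_succ], by simp [W, List.replicate_succ]⟩
    · obtain ⟨m, p, rfl, rfl⟩ := h
      exact ⟨0, m, p, by simp, by simp [W]⟩
    · obtain ⟨m, p, rfl, rfl⟩ := h
      exact ⟨m + 1, p, by simp [List.replicate_succ], by simp [List.replicate_succ]⟩
    · obtain ⟨p, rfl, rfl⟩ := h
      exact ⟨0, p, by simp, by simp⟩
    · obtain ⟨p, rfl, rfl⟩ := h
      exact ⟨p + 1, by simp, by simp [List.replicate_succ]⟩
    · obtain ⟨n, m, p, rfl, rfl⟩ := h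
      exact ⟨n + 1, m, p, by simp, by simp [W, List.replicate_succ]⟩
    · obtain ⟨m, p, rfl, rfl⟩ := h
      exact ⟨0, m, p, by simp, by simp [W]⟩
    · obtain ⟨m, p, rfl, rfl⟩ := h
      exact ⟨m + 1, p, by simp [List.replicate_succ], by simp [List.replicate_succ]⟩
    · obtain ⟨p, rfl, rfl⟩ := h
      exact ⟨0, p, by simp, by simp⟩
    · obtain ⟨p, rfl, rfl⟩ := h
      exact ⟨p + 1, by simp [List.replicate_succ], by simp [List.replicate_succ]⟩

/-- a loop -/
theorem loopPath {A B Q : Type} {E : Set (Q × Option A × Option B × Q)} {q : Q} {a : Option A}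
    {b : Option B} (h : (q, a, b, q) ∈ E) (n : ℕ) :
    Path E q (List.replicate n a.toList).flatten (List.replicate n b.toList).flatten q := by
  induction n with
  | zero => exact Path.nil q
  | succ n ih => exact Path.cons h ih

theorem flat1 {A : Type} (a : A) (n : ℕ) :
    (List.replicate n (some a).toList).flatten = List.replicate n a := by
  induction n with
  | zero => rfl
  | succ n ih => simpa [List.replicate_succ] using ih

theorem flat0 {A : Type} (n : ℕ) :
    (List.replicate n (none : Option A).toList).flatten = [] := by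
  induction n with
  | zero => rfl
  | succ n ih => simpa [List.replicate_succ] using ih

theorem T3_image : T3.image sNe = L3 := by
  ext v
  constructor
  · rintro ⟨x, ⟨a, b, hab, rfl⟩, i, hi, f, hf, h⟩
    have hs := T3_sound h hf
    have key : ∀ n m : ℕ, List.replicate a (0 : Fin 2) ++ List.replicate b 1 =
        List.replicate n 0 ++ List.replicate m 1 → a = n ∧ b = m := by
      intro n m h
      have h0 := congrArg (List.count 0) h
      have h1 := congrArg (List.count 1) h
      simp only [List.count_append, List.count_replicate] at h0 h1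
      simp at h0 h1
      exact ⟨h0, h1⟩
    rcases hi with rfl | rfl
    · obtain ⟨n, m, p, hx, rfl⟩ := hs
      obtain ⟨rfl, rfl⟩ := key _ _ hx
      exact ⟨a, b, p, fun h => hab h.1.symm, rfl⟩
    · obtain ⟨n, m, p, hx, rfl⟩ := hs
      obtain ⟨rfl, rfl⟩ := key _ _ hx
      exact ⟨n, a, b, fun h => hab h.2.symm, rfl⟩
  · rintro ⟨n, m, p, hne, rfl⟩
    by_cases h : n = m
    · have hmp : m ≠ p := fun h' => hne ⟨h, h'⟩
      refine ⟨List.replicate m 0 ++ List.replicate p 1, ⟨m, p, hmp.symm, rfl⟩, (3 : Fin 6), Or.inr rfl, (5 : Fin 6),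
        Or.inr rfl, ?_⟩
      have p1 := loopPath (E := E3) (q := (3 : Fin 6)) (a := none) (b := some 0)
        (by simp [E3]) n
      have p2 : Path E3 (3 : Fin 6) ([] ++ []) ([] ++ []) (4 : Fin 6) :=
        Path.cons (a := none) (b := none) (by simp [E3]) (Path.nil _)
      have p3 := loopPath (E := E3) (q := (4 : Fin 6)) (a := some 0) (b := some 1)
        (by simp [E3]) m
      have p4 : Path E3 (4 : Fin 6) ([] ++ []) ([] ++ []) (5 : Fin 6) :=
        Path.cons (a := none) (b := none) (by simp [E3]) (Path.nil _)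
      have p5 := loopPath (E := E3) (q := (5 : Fin 6)) (a := some 1) (b := some 2)
        (by simp [E3]) p
      have := p1.append (p2.append (p3.append (p4.append p5)))
      rw [flat0, flat1, flat1, flat1, flat1, flat1] at this
      have h' : Path E3 (3 : Fin 6) (List.replicate m 0 ++ List.replicate p 1) (W n m p)
          (5 : Fin 6) := by simpa [W] using this
      exact h'
    · refine ⟨List.replicate n 0 ++ List.replicate m 1, ⟨n, m, fun h' => h h'.symm, rfl⟩, (0 : Fin 6),
        Or.inl rfl, (2 : Fin 6), Or.inl rfl, ?_⟩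
      have p1 := loopPath (E := E3) (q := (0 : Fin 6)) (a := some 0) (b := some 0)
        (by simp [E3]) n
      have p2 : Path E3 (0 : Fin 6) ([] ++ []) ([] ++ []) (1 : Fin 6) :=
        Path.cons (a := none) (b := none) (by simp [E3]) (Path.nil _)
      have p3 := loopPath (E := E3) (q := (1 : Fin 6)) (a := some 1) (b := some 1)
        (by simp [E3]) m
      have p4 : Path E3 (1 : Fin 6) ([] ++ []) ([] ++ []) (2 : Fin 6) :=
        Path.cons (a := none) (b := none) (by simp [E3]) (Path.nil _)
      have p5 := loopPath (E := E3) (q := (2 : Fin 6)) (a := none) (b := some 2)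
        (by simp [E3]) p
      have := p1.append (p2.append (p3.append (p4.append p5)))
      rw [flat0, flat1, flat1, flat1, flat1, flat1] at this
      have h' : Path E3 (0 : Fin 6) (List.replicate n 0 ++ List.replicate m 1) (W n m p)
          (2 : Fin 6) := by simpa [W] using this
      exact h'

theorem W_inj {n m p n' m' p' : ℕ} (h : W n m p = W n' m' p') : n = n' ∧ m = m' ∧ p = p' := by
  have h0 := congrArg (List.count 0) h
  have h1 := congrArg (List.count 1) h
  have h2 := congrArg (List.count 2) h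
  simp only [W, List.count_append, List.count_replicate] at h0 h1 h2
  simp at h0 h1 h2
  exact ⟨h0, h1, h2⟩

theorem L3_not_regular : ¬ Regular L3 := by
  rintro ⟨σ, hσ, M, hM⟩
  have hmem : ∀ x, x ∈ M.accepts ↔ x ∈ L3 := fun x => by rw [hM]; rfl
  obtain ⟨a, b, hne, hab⟩ : ∃ a b : ℕ, a ≠ b ∧ M.eval (List.replicate a 0) =
      M.eval (List.replicate b 0) := by
    by_contra hcon
    push Not at hcon
    exact not_injective_infinite_finite (fun n : ℕ => M.eval (List.replicate n 0))
      fun a b h => by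
        by_contra hne
        exact hcon a b hne h
  have h1 : W a b b ∈ L3 := ⟨a, b, b, fun h => hne h.1, rfl⟩
  have h2 : W b b b ∉ L3 := by
    rintro ⟨n, m, p, hn, h⟩
    obtain ⟨rfl, rfl, rfl⟩ := W_inj h
    exact hn ⟨rfl, rfl⟩
  apply h2
  rw [← hmem] at h1 ⊢
  have e : ∀ n, M.eval (W n b b) = M.evalFrom (M.eval (List.replicate n 0))
      (List.replicate b 1 ++ List.replicate b 2) := by
    intro n
    rw [W, DFA.eval, DFA.evalFrom_of_append]
    try rfl
  show M.eval _ ∈ M.accept
  rw [e, ← hab, ← e]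
  exact h1

theorem L3_bounded : Bounded 3 L3 := by
  refine ⟨fun i => [i], ?_⟩
  rintro x ⟨n, m, p, -, rfl⟩
  refine ⟨![n, m, p], ?_⟩
  have h : ∀ (k : ℕ) (a : Fin 3), (List.replicate k [a]).flatten = List.replicate k a := by
    intro k a
    have := flat1 a k
    simpa using this
  simp [List.ofFn_succ, h, W]

/-- `T(s_≠)` contains a non-regular language inside `a*b*c*` which does not generate it, so it
is not minimal with respect to bounded languages of degree `3`. -/
theorem result :
    (∃ L ∈ T sNe (Fin 3), Bounded 3 L ∧ ¬ Regular L ∧ sNe ∉ T L (Fin 2)) ∧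
    ¬ Minimal (T sNe) 3 ∧
    ¬ ∀ k, 1 ≤ k → Minimal (T sLt) k ∧ Minimal (T sNe) k ∧ Minimal (T sGt) k := by
  have h1 : L3 ∈ T sNe (Fin 3) := by
    intro C hC hL
    rw [← T3_image]
    exact hC _ _ T3 _ hL
  have h2 : sNe ∉ T L3 (Fin 2) := by
    intro h
    obtain ⟨M, hM⟩ := mem_T h
    exact not_image M hM.symm
  have h3 : ¬ Minimal (T sNe) 3 := by
    intro hmin
    rcases hmin (Fin 3) L3 h1 L3_bounded with h | h
    · exact L3_not_regular h
    · apply h2
      rw [h (Fin 2)]
      exact fun C _ hL => hL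
  exact ⟨⟨L3, h1, L3_bounded, L3_not_regular, h2⟩, h3, fun h => h3 (h 3 (by norm_num)).2.1⟩

end Pool.Agent.Results.MP_3a8f7c_lc.NeConeNotMinimal
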